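import Pool.Agent.helper91.MM.SpecA

set_option autoImplicit false

namespace Pool.Agent.MM

open Pool.Agent.Scheepers Filter Topology

open Classical in
/-- the index of a string -/
noncomputable def HSH_G (K L : ℕ) (s : Fin (K + 1) → (Fin L → Bool)) (t : Fin L → Bool) : Fin (K + 1) :=
  if h : ∃ i, s i = t then h.choose else 0

theorem HSH : HSH_stmt := by
  intro K
  obtain ⟨c, hc⟩ := exists_surjective_nat (Σ L : ℕ, (Fin (K + 1) → (Fin L → Bool)))
  refine ⟨fun j y => HSH_G K (c (Nat.unpair j).1).1 (c (Nat.unpair j).1).2 (fun e => y e), fun j i => ?_, ?_⟩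
  · have hcont : Continuous (fun (y : ℕ → Bool) (e : Fin (c (Nat.unpair j).1).1) => y e) := by fun_prop
    exact (isClopen_discrete {t : Fin (c (Nat.unpair j).1).1 → Bool | HSH_G K (c (Nat.unpair j).1).1 (c (Nat.unpair j).1).2 t = i}).preimage hcont
  · intro y hy m
    have hsep : ∀ p : Fin (K + 1) × Fin (K + 1), ∃ n : ℕ, p.1 ≠ p.2 → y p.1 n ≠ y p.2 n := by
      intro p
      by_cases hp : p.1 = p.2
      · exact ⟨0, fun h => absurd hp h⟩
      · have : y p.1 ≠ y p.2 := fun h => hp (hy h)
        obtain ⟨n, hn⟩ := Function.ne_iff.1 this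
        exact ⟨n, fun _ => hn⟩
    choose nn hnn using hsep
    set L := Finset.univ.sup (fun p => nn p + 1) with hL
    have hLlt : ∀ p, nn p < L := fun p => Nat.lt_of_succ_le (Finset.le_sup (f := fun p => nn p + 1) (Finset.mem_univ p))
    let s : Fin (K + 1) → (Fin L → Bool) := fun j e => y j e
    have hs : Function.Injective s := by
      intro j j' hjj
      by_contra hne
      apply hnn (j, j') hne
      have := congrFun hjj ⟨nn (j, j'), hLlt (j, j')⟩
      exact this
    obtain ⟨a, ha⟩ := hc ⟨L, s⟩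
    refine ⟨Nat.pair a m, Nat.right_le_pair a m, fun i => ?_⟩
    have hex : ∃ i', s i' = s i := ⟨i, rfl⟩
    have h1 : HSH_G K L s (s i) = i := by
      unfold HSH_G
      rw [dif_pos hex]
      exact hs hex.choose_spec
    have h2 : ∀ q : (Σ L : ℕ, (Fin (K + 1) → (Fin L → Bool))), q = ⟨L, s⟩ → HSH_G K q.1 q.2 (fun e => y i e) = i := by
      rintro _ rfl
      exact h1
    apply h2
    rw [Nat.unpair_pair]
    exact ha

end Pool.Agent.MM
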