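import Pool.Agent.helper91.MM.SpecA

set_option autoImplicit false

namespace Pool.Agent.MM

open Pool.Agent.Scheepers Filter Topology

theorem IND (h1 : ZMG_stmt) (h2 : PFS_stmt) : IND_stmt := by
  intro E _ hE K
  induction K with
  | zero =>
    intro R _ _ hcard
    refine ⟨fun _ => false, fun x m h => ?_⟩
    have h3 := hcard x
    rw [Nat.cast_zero, nonpos_iff_eq_zero, Set.encard_eq_zero] at h3
    have h4 : (fun _ => false : ℕ → Bool) ∈ Dv R x := ⟨m, h⟩
    rw [h3] at h4
    exact absurd h4 (Set.notMem_empty _)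
  | succ K ih =>
    intro R hRc hRm hcard
    have hZ := h1 E hE K R hRc hRm hcard
    obtain ⟨j, hjc, hji, hj⟩ := h2 _ hZ
    have hc : ∀ m, IsClosed {q : E × (ℕ → Bool) | (q.1, j q.2) ∈ R m} := fun m =>
      (hRc m).preimage (by fun_prop : Continuous fun q : E × (ℕ → Bool) => (q.1, j q.2))
    have hm : Monotone (fun m => {q : E × (ℕ → Bool) | (q.1, j q.2) ∈ R m}) := by
      intro m n hmn q hq
      exact hRm hmn hq
    have hfin : ∀ x, (Dv (fun m => {q : E × (ℕ → Bool) | (q.1, j q.2) ∈ R m}) x).encard ≤ (K : ℕ∞) := by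
      intro x
      by_cases hx : (Dv R x).encard = ((K + 1 : ℕ) : ℕ∞)
      · have : Dv (fun m => {q : E × (ℕ → Bool) | (q.1, j q.2) ∈ R m}) x = ∅ := by
          rw [Set.eq_empty_iff_forall_notMem]
          rintro y ⟨m, hm⟩
          exact hj y ⟨x, ⟨m, hm⟩, hx⟩
        rw [this, Set.encard_empty]
        exact zero_le
      · have hlt : (Dv R x).encard < ((K + 1 : ℕ) : ℕ∞) := lt_of_le_of_ne (hcard x) hx
        have hle : (Dv R x).encard ≤ (K : ℕ∞) := by
          rw [Nat.cast_add, Nat.cast_one] at hlt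
          exact Order.le_of_lt_add_one hlt
        have hsub : j '' (Dv (fun m => {q : E × (ℕ → Bool) | (q.1, j q.2) ∈ R m}) x) ⊆ Dv R x := by
          rintro _ ⟨y, ⟨m, hm⟩, rfl⟩
          exact ⟨m, hm⟩
        have h5 := Set.encard_le_encard hsub
        rw [hji.encard_image] at h5
        exact h5.trans hle
    obtain ⟨y, hy⟩ := ih (fun m => {q : E × (ℕ → Bool) | (q.1, j q.2) ∈ R m}) hc hm hfin
    exact ⟨j y, hy⟩

end Pool.Agent.MM
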