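import Pool.Agent.helper91.MM.SpecA

set_option autoImplicit false

namespace Pool.Agent.MM

open Pool.Agent.Scheepers Filter Topology

theorem PRJ : PRJ_stmt := by
  intro E _ R hR B hB
  have h : {x | ∃ y ∈ B, (x, y) ∈ R} = Prod.fst '' (R ∩ (Prod.snd ⁻¹' B)) := by
    ext x
    constructor
    · rintro ⟨y, hy, hxy⟩
      exact ⟨(x, y), ⟨hxy, hy⟩, rfl⟩
    · rintro ⟨⟨x', y⟩, ⟨hxy, hy⟩, rfl⟩
      exact ⟨y, hy, hxy⟩
  rw [h]
  exact isClosedMap_fst_of_compactSpace _ (hR.inter (hB.preimage continuous_snd))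

end Pool.Agent.MM
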