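import Pool.Agent.helper91.MM.SpecB

set_option autoImplicit false

namespace Pool.Agent.MM

open Pool.Agent.Scheepers Filter Topology Cardinal

theorem XBK : XBK_stmt := by
  intro S p
  refine ⟨?_, ?_⟩
  · intro J e he
    have hex : ∃ j, e < p.a (j + 1) := ⟨e, lt_of_lt_of_le (Nat.lt_succ_self e) (p.mono.id_le (e + 1))⟩
    classical
    have h1 := Nat.find_spec hex
    have h2 : ∀ m < Nat.find hex, p.a (m + 1) ≤ e := fun m hm => not_lt.1 (Nat.find_min hex hm)
    have hJ : J ≤ Nat.find hex := by
      by_contra hlt
      push Not at hlt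
      have : p.a (Nat.find hex + 1) ≤ p.a J := p.mono.monotone hlt
      omega
    refine ⟨Nat.find hex, hJ, ?_, h1⟩
    rcases Nat.eq_zero_or_pos (Nat.find hex) with h0 | h0
    · have : J = 0 := by omega
      rw [h0]
      rw [this] at he
      exact he
    · have h3 := h2 (Nat.find hex - 1) (by omega)
      have h4 : Nat.find hex - 1 + 1 = Nat.find hex := by omega
      rw [h4] at h3
      exact h3
  · intro i j e hi hi' hj hj'
    rcases lt_trichotomy i j with h | h | h
    · have : p.a (i + 1) ≤ p.a j := p.mono.monotone h
      omega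
    · exact h
    · have : p.a (j + 1) ≤ p.a i := p.mono.monotone h
      omega

end Pool.Agent.MM
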