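import Pool.Agent.helper91.MM.SpecA

set_option autoImplicit false

namespace Pool.Agent.MM

open Pool.Agent.Scheepers Filter Topology

/-- cylinder of a string -/
def ZMG_cyl {L : ℕ} (t : Fin L → Bool) : Set (ℕ → Bool) := {y | ∀ e : Fin L, y e = t e}

lemma ZMG_cyl_closed {L : ℕ} (t : Fin L → Bool) : IsClosed (ZMG_cyl t) := by
  have : ZMG_cyl t = ⋂ e : Fin L, {y : ℕ → Bool | y e = t e} := by
    ext y
    simp [ZMG_cyl]
  rw [this]
  exact isClosed_iInter fun e => isClosed_eq (continuous_apply _) continuous_const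

/-- uniqueness of the value in a cylinder -/
lemma ZMG_unique (D : Set (ℕ → Bool)) (K L : ℕ) (s : Fin (K + 1) → (Fin L → Bool)) (hs : Function.Injective s)
    (hD : D.encard ≤ ((K + 1 : ℕ) : ℕ∞)) (w : Fin (K + 1) → (ℕ → Bool)) (hw : ∀ j, w j ∈ ZMG_cyl (s j)) (hwD : ∀ j, w j ∈ D)
    (i : Fin (K + 1)) (z : ℕ → Bool) (hz : z ∈ ZMG_cyl (s i)) (hzD : z ∈ D) : z = w i := by
  by_contra hne
  have hcyl : ∀ (j j' : Fin (K + 1)) (y : ℕ → Bool), y ∈ ZMG_cyl (s j) → y ∈ ZMG_cyl (s j') → j = j' := by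
    intro j j' y h1 h2
    apply hs
    funext e
    rw [← h1 e, ← h2 e]
  have hinj : Function.Injective w := by
    intro j j' hjj
    refine hcyl j j' (w j) (hw j) ?_
    rw [hjj]
    exact hw j'
  have hnot : z ∉ Set.range w := by
    rintro ⟨j, rfl⟩
    apply hne
    rw [hcyl j i (w j) (hw j) hz]
  have hsub : insert z (Set.range w) ⊆ D := by
    rintro y (rfl | ⟨j, rfl⟩)
    · exact hzD
    · exact hwD j
  have h1 := Set.encard_le_encard hsub
  rw [Set.encard_insert_of_notMem hnot, ← Set.image_univ, hinj.encard_image, Set.encard_univ, ENat.card_eq_coe_fintype_card,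
    Fintype.card_fin] at h1
  have h2 := h1.trans hD
  have h3 : ((K + 1 + 1 : ℕ) : ℕ∞) ≤ ((K + 1 : ℕ) : ℕ∞) := by
    push_cast at h2 ⊢
    exact h2
  rw [Nat.cast_le] at h3
  omega

theorem ZMG (h1 : MGR_stmt) (h2 : PRJ_stmt) (h3 : UNQ_stmt) : ZMG_stmt := by
  intro E _ hE K R hRc hRm hcard
  -- the closed sets
  set C : ∀ (m L : ℕ), (Fin (K + 1) → (Fin L → Bool)) → Set E :=
    fun m L s => {x | ∀ i, ∃ y ∈ ZMG_cyl (s i), (x, y) ∈ R m} with hC
  have hCc : ∀ m L s, IsClosed (C m L s) := by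
    intro m L s
    have : C m L s = ⋂ i, {x | ∃ y ∈ ZMG_cyl (s i), (x, y) ∈ R m} := by
      ext x
      simp only [hC, Set.mem_setOf_eq, Set.mem_iInter]
    rw [this]
    exact isClosed_iInter fun i => h2 E (R m) (hRc m) _ (ZMG_cyl_closed _)
  have hmeag : ∀ (a : ℕ × (Σ L : ℕ, (Fin (K + 1) → (Fin L → Bool))) × Fin (K + 1)),
      IsMeagre {y | Function.Injective a.2.1.2 ∧ ∃ x ∈ C a.1 a.2.1.1 a.2.1.2, y ∈ Dv R x ∧ y ∈ ZMG_cyl (a.2.1.2 a.2.2)} := by
    rintro ⟨m, ⟨L, s⟩, i⟩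
    by_cases hs : Function.Injective s
    · have huniq : ∀ x ∈ C m L s, ∃! y, y ∈ ZMG_cyl (s i) ∧ (x, y) ∈ R m := by
        intro x hx
        choose w hw hwR using hx
        refine ⟨w i, ⟨hw i, hwR i⟩, fun z hz => ?_⟩
        exact ZMG_unique (Dv R x) K L s hs (hcard x) w hw (fun j => ⟨m, hwR j⟩) i z hz.1 ⟨m, hz.2⟩
      obtain ⟨φ, hφc, hφ⟩ := h3 E (R m) (hRc m) (ZMG_cyl (s i)) (ZMG_cyl_closed _) (C m L s) huniq
      refine (h1 E hE (C m L s) (hCc m L s) φ hφc).mono ?_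
      rintro y ⟨-, x, hx, hyD, hyc⟩
      refine ⟨⟨x, hx⟩, ?_⟩
      have hx' := hx
      choose w hw hwR using hx'
      have e1 := ZMG_unique (Dv R x) K L s hs (hcard x) w hw (fun j => ⟨m, hwR j⟩) i y hyc hyD
      have e2 := ZMG_unique (Dv R x) K L s hs (hcard x) w hw (fun j => ⟨m, hwR j⟩) i (φ ⟨x, hx⟩) (hφ ⟨x, hx⟩).1 ⟨m, (hφ ⟨x, hx⟩).2⟩
      rw [e1, e2]
    · have : {y | Function.Injective s ∧ ∃ x ∈ C m L s, y ∈ Dv R x ∧ y ∈ ZMG_cyl (s i)} = ∅ := by
        ext y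
        simp [hs]
      simp only
      rw [this]
      exact IsMeagre.empty
  refine (isMeagre_iUnion hmeag).mono ?_
  rintro y ⟨x, hyD, hx⟩
  have hfin : (Dv R x).Finite := by
    apply Set.finite_of_encard_eq_coe hx
  have hFc : hfin.toFinset.card = K + 1 := by
    have h4 := hfin.encard_eq_coe_toFinset_card
    rw [hx] at h4
    exact (Nat.cast_injective (R := ℕ∞) h4).symm
  let e := Finset.equivFinOfCardEq hFc
  let w : Fin (K + 1) → (ℕ → Bool) := fun j => (e.symm j).1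
  have hwD : ∀ j, w j ∈ Dv R x := fun j => (Set.Finite.mem_toFinset hfin).1 (e.symm j).2
  have hwinj : Function.Injective w := fun j j' h => e.symm.injective (Subtype.ext h)
  have hwsurj : ∀ z ∈ Dv R x, ∃ j, w j = z := by
    intro z hz
    refine ⟨e ⟨z, (Set.Finite.mem_toFinset hfin).2 hz⟩, ?_⟩
    simp [w]
  choose mj hmj using hwD
  set m := Finset.univ.sup mj with hm
  have hwm : ∀ j, (x, w j) ∈ R m := fun j => hRm (Finset.le_sup (Finset.mem_univ j)) (hmj j)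
  have hsep : ∀ p : Fin (K + 1) × Fin (K + 1), ∃ n : ℕ, p.1 ≠ p.2 → w p.1 n ≠ w p.2 n := by
    intro p
    by_cases hp : p.1 = p.2
    · exact ⟨0, fun h => absurd hp h⟩
    · have : w p.1 ≠ w p.2 := fun h => hp (hwinj h)
      obtain ⟨n, hn⟩ := Function.ne_iff.1 this
      exact ⟨n, fun _ => hn⟩
  choose nn hnn using hsep
  set L := Finset.univ.sup (fun p => nn p + 1) with hL
  have hLlt : ∀ p, nn p < L := fun p => Nat.lt_of_succ_le (Finset.le_sup (f := fun p => nn p + 1) (Finset.mem_univ p))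
  let s : Fin (K + 1) → (Fin L → Bool) := fun j e => w j e
  have hs : Function.Injective s := by
    intro j j' hjj
    by_contra hne
    apply hnn (j, j') hne
    have := congrFun hjj ⟨nn (j, j'), hLlt (j, j')⟩
    exact this
  obtain ⟨i, hi⟩ := hwsurj y hyD
  rw [Set.mem_iUnion]
  refine ⟨⟨m, ⟨L, s⟩, i⟩, hs, x, fun j => ⟨w j, fun e => rfl, hwm j⟩, hyD, ?_⟩
  rw [← hi]
  exact fun e => rfl

end Pool.Agent.MM
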